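import Mathlib

set_option autoImplicit false
open scoped Topology Gradient
open Set Metric Filter

namespace Pool.Agent.Results.MP_dcb15c_an.Nonunique

section Defs
variable {E : Type} [NormedAddCommGroup E] [InnerProductSpace ℝ E] [FiniteDimensional ℝ E]

/-- `Δφ(x) + (p-2) ⟨D²φ(x) e, e⟩`. -/
noncomputable def op (p : ℝ) (φ : E → ℝ) (x e : E) : ℝ :=
  Laplacian.laplacian φ x + (p - 2) * iteratedFDeriv ℝ 2 φ x ![e, e]

/-- Admissible directions: the normalised gradient when it is nonzero, any unit vector otherwise. -/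
def Adm (φ : E → ℝ) (x e : E) : Prop :=
  ‖e‖ = 1 ∧ (gradient φ x ≠ 0 → e = ‖gradient φ x‖⁻¹ • gradient φ x)

/-- Viscosity solution of `Δ_p^N u = f` in `Ω`, `u = g` on the boundary. -/
def Sol (p : ℝ) (Ω : Set E) (f g u : E → ℝ) : Prop :=
  ContinuousOn u (closure Ω) ∧ EqOn u g (frontier Ω) ∧
    ∀ x ∈ Ω, ∀ φ : E → ℝ, ContDiffAt ℝ 2 φ x →
      (IsLocalMax (u - φ) x → ∃ e, Adm φ x e ∧ f x ≤ op p φ x e) ∧
      (IsLocalMin (u - φ) x → ∃ e, Adm φ x e ∧ op p φ x e ≤ f x)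

end Defs

abbrev E2 := EuclideanSpace ℝ (Fin 2)

lemma second_nonpos {w : E2 → ℝ} {x : E2} (hw : ContDiffAt ℝ 2 w x) (hm : IsLocalMax w x)
    (e : E2) : fderiv ℝ (fderiv ℝ w) x e e ≤ 0 := by
  by_contra hc
  push Not at hc
  set l : ℝ → E2 := fun t => x + t • e with hl
  have hl0 : l 0 = x := by simp [hl]
  have hld : ∀ t, HasDerivAt l e t := fun t => by
    simpa [hl] using ((hasDerivAt_id t).smul_const e).const_add x
  have hlc : Tendsto l (𝓝 0) (𝓝 x) := by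
    rw [← hl0]; exact (hld 0).continuousAt
  have h1 : ∀ᶠ y in 𝓝 x, DifferentiableAt ℝ w y :=
    (hw.eventually (by simp)).mono fun y hy => hy.differentiableAt (by simp)
  have h2 : deriv (w ∘ l) =ᶠ[𝓝 0] fun t => fderiv ℝ w (l t) e :=
    (hlc.eventually h1).mono fun t ht => (ht.hasFDerivAt.comp_hasDerivAt t (hld t)).deriv
  have h3 : DifferentiableAt ℝ (fderiv ℝ w) x :=
    (hw.fderiv_right (m := 1) (by norm_num)).differentiableAt (by simp)
  have h4 : HasDerivAt (fun t => fderiv ℝ w (l t) e) (fderiv ℝ (fderiv ℝ w) x e e) 0 := by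
    have a : HasDerivAt (fderiv ℝ w ∘ l) (fderiv ℝ (fderiv ℝ w) x e) 0 :=
      HasFDerivAt.comp_hasDerivAt_of_eq 0 h3.hasFDerivAt (hld 0) hl0.symm
    simpa using a.clm_apply (hasDerivAt_const (0 : ℝ) e)
  have h5 : deriv (deriv (w ∘ l)) 0 = fderiv ℝ (fderiv ℝ w) x e e := by
    rw [h2.deriv_eq, h4.deriv]
  have hm' : IsLocalMax (w ∘ l) 0 := by
    have : IsLocalMax w (l 0) := hl0 ▸ hm
    exact this.comp_continuous (hld 0).continuousAt
  have hc' : ContinuousAt (w ∘ l) 0 :=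
    ContinuousAt.comp_of_eq hw.continuousAt (hld 0).continuousAt hl0
  have hmin := isLocalMin_of_deriv_deriv_pos (h5 ▸ hc) hm'.deriv_eq_zero hc'
  have h6 : w ∘ l =ᶠ[𝓝 0] fun _ => (w ∘ l) 0 := by
    filter_upwards [hm', hmin] with t h h' using le_antisymm h h'
  have h7 : deriv (deriv (w ∘ l)) 0 = 0 := by
    rw [h6.deriv.deriv_eq]; simp
  rw [h5] at h7
  exact hc.ne' h7

/-- The second derivative as a quadratic form. -/
noncomputable def Q (φ : E2 → ℝ) (x e : E2) : ℝ := fderiv ℝ (fderiv ℝ φ) x e e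

lemma op_eq (p : ℝ) (φ : E2 → ℝ) (x e : E2) :
    op p φ x e = Q φ x !₂[1, 0] + Q φ x !₂[0, 1] + (p - 2) * Q φ x e := by
  rw [op, InnerProductSpace.laplacian_eq_iteratedFDeriv_orthonormalBasis φ
    (EuclideanSpace.basisFun (Fin 2) ℝ)]
  simp only [iteratedFDeriv_two_apply, Fin.sum_univ_two, Q]
  have e0 : EuclideanSpace.basisFun (Fin 2) ℝ 0 = !₂[1, 0] := by
    ext i; fin_cases i <;> simp
  have e1 : EuclideanSpace.basisFun (Fin 2) ℝ 1 = !₂[0, 1] := by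
    ext i; fin_cases i <;> simp
  rw [e0, e1]; simp

lemma rot (φ : E2 → ℝ) (x e : E2) (he : ‖e‖ = 1) :
    Q φ x !₂[1, 0] + Q φ x !₂[0, 1] = Q φ x e + Q φ x !₂[-e 1, e 0] := by
  have h1 : e 0 ^ 2 + e 1 ^ 2 = 1 := by
    have := EuclideanSpace.real_norm_sq_eq e
    rw [he, Fin.sum_univ_two] at this
    linarith
  have a : e = e 0 • !₂[1, 0] + e 1 • !₂[0, 1] := by ext i; fin_cases i <;> simp
  have b : (!₂[-e 1, e 0] : E2) = (-e 1) • !₂[1, 0] + e 0 • !₂[0, 1] := by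
    ext i; fin_cases i <;> simp
  have c : ∀ s t : ℝ, Q φ x (s • !₂[1, 0] + t • !₂[0, 1]) = s ^ 2 * Q φ x !₂[1, 0] +
      t ^ 2 * Q φ x !₂[0, 1] + s * t * (fderiv ℝ (fderiv ℝ φ) x !₂[1, 0] !₂[0, 1] +
        fderiv ℝ (fderiv ℝ φ) x !₂[0, 1] !₂[1, 0]) := by
    intro s t
    simp only [Q, map_add, map_smul, _root_.add_apply, _root_.smul_apply, smul_eq_mul]
    ring
  rw [b, c]
  conv_rhs => rw [a, c]
  simp only [PiLp.add_apply, PiLp.smul_apply]
  simp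
  linear_combination (-(Q φ x !₂[1, 0] + Q φ x !₂[0, 1])) * h1

lemma Q_sub {u φ : E2 → ℝ} {x : E2} (hu : ContDiffAt ℝ 2 u x) (hφ : ContDiffAt ℝ 2 φ x) (e : E2) :
    Q (u - φ) x e = Q u x e - Q φ x e := by
  have := congrArg (fun T => T ![e, e]) (iteratedFDeriv_sub_apply hu hφ)
  simpa [iteratedFDeriv_two_apply, Q] using this

lemma touch {p : ℝ} (hp : 1 ≤ p) {u φ : E2 → ℝ} {x : E2} (hu : ContDiffAt ℝ 2 u x)
    (hφ : ContDiffAt ℝ 2 φ x) (hm : IsLocalMax (u - φ) x) :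
    gradient u x = gradient φ x ∧ ∀ e, ‖e‖ = 1 → op p u x e ≤ op p φ x e := by
  constructor
  · have h := hm.fderiv_eq_zero
    rw [fderiv_sub (hu.differentiableAt (by simp)) (hφ.differentiableAt (by simp)),
      sub_eq_zero] at h
    simp only [gradient, h]
  · intro e he
    rw [op_eq, op_eq, rot u x e he, rot φ x e he]
    have h1 := second_nonpos (hu.sub hφ) hm e
    have h2 := second_nonpos (hu.sub hφ) hm !₂[-e 1, e 0]
    change Q (u - φ) x _ ≤ 0 at h1 h2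
    rw [Q_sub hu hφ] at h1 h2
    nlinarith

lemma sol_of {p : ℝ} (hp : 1 ≤ p) {Ω : Set E2} {f g u : E2 → ℝ} (hu : ContDiff ℝ 2 u)
    (hg : EqOn u g (frontier Ω)) (h : ∀ x, ∃ e, Adm u x e ∧ op p u x e = f x) :
    Sol p Ω f g u := by
  refine ⟨hu.continuous.continuousOn, hg, fun x _ φ hφ => ?_⟩
  obtain ⟨e, he, hf⟩ := h x
  constructor
  · intro hm
    obtain ⟨h1, h2⟩ := touch hp hu.contDiffAt hφ hm
    exact ⟨e, ⟨he.1, h1 ▸ he.2⟩, hf ▸ h2 e he.1⟩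
  · intro hm
    have hm' : IsLocalMax (φ - u) x := by
      have := hm.neg
      simp only [Pi.sub_apply, neg_sub] at this
      exact this
    obtain ⟨h1, h2⟩ := touch hp hφ hu.contDiffAt hm'
    exact ⟨e, ⟨he.1, h1 ▸ he.2⟩, hf ▸ h2 e he.1⟩

lemma Q_smul (φ : E2 → ℝ) (x e : E2) (t : ℝ) : Q φ x (t • e) = t ^ 2 * Q φ x e := by
  simp only [Q, map_smul, _root_.smul_apply, smul_eq_mul]; ring

lemma adm_of (u : E2 → ℝ) (x w : E2) (t : ℝ) (hw : w ≠ 0) (h : gradient u x = t • w) :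
    ∃ e, Adm u x e ∧ Q u x e = (w 0 ^ 2 + w 1 ^ 2)⁻¹ * Q u x w := by
  have hn : ‖w‖ ^ 2 = w 0 ^ 2 + w 1 ^ 2 := by
    rw [EuclideanSpace.real_norm_sq_eq, Fin.sum_univ_two]
  have hw' : ‖w‖ ≠ 0 := norm_ne_zero_iff.mpr hw
  by_cases ht : t = 0
  · refine ⟨‖w‖⁻¹ • w, ⟨by simp [norm_smul, hw'], fun h0 => absurd ?_ h0⟩, ?_⟩
    · rw [h, ht, zero_smul]
    · rw [Q_smul, inv_pow, hn]
  · refine ⟨‖t • w‖⁻¹ • t • w, ⟨?_, fun _ => by rw [h]⟩, ?_⟩
    · rw [norm_smul, norm_inv, norm_norm, inv_mul_cancel₀]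
      exact norm_ne_zero_iff.mpr (smul_ne_zero ht hw)
    · rw [Q_smul, Q_smul, inv_pow, norm_smul, mul_pow, hn, Real.norm_eq_abs, sq_abs]
      field_simp

noncomputable abbrev X : E2 →L[ℝ] ℝ := EuclideanSpace.proj 0
noncomputable abbrev Y : E2 →L[ℝ] ℝ := EuclideanSpace.proj 1

lemma hX (x : E2) : HasFDerivAt (fun y : E2 => y 0) X x := X.hasFDerivAt
lemma hY (x : E2) : HasFDerivAt (fun y : E2 => y 1) Y x := Y.hasFDerivAt

lemma jet {u a b : E2 → ℝ} (hu : ∀ x, HasFDerivAt u (a x • X + b x • Y) x) (x : E2)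
    {a₁ a₂ b₁ b₂ : ℝ} (ha : HasFDerivAt a (a₁ • X + a₂ • Y) x)
    (hb : HasFDerivAt b (b₁ • X + b₂ • Y) x) :
    gradient u x = !₂[a x, b x] ∧
      ∀ e, Q u x e = (a₁ * e 0 + a₂ * e 1) * e 0 + (b₁ * e 0 + b₂ * e 1) * e 1 := by
  constructor
  · apply HasGradientAt.gradient
    rw [hasGradientAt_iff_hasFDerivAt]
    refine (hu x).congr_fderiv (ContinuousLinearMap.ext fun e => ?_)
    simp [PiLp.inner_apply, mul_comm]
  · intro e
    have h1 : fderiv ℝ u = fun x => a x • X + b x • Y := funext fun x => (hu x).fderiv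
    have h2 := ((ha.smul_const X).add (hb.smul_const Y)).fderiv
    rw [Q, h1]
    erw [h2]
    simp

noncomputable def uu (x : E2) : ℝ := (x 0 ^ 2 - x 1 ^ 2) ^ 2
noncomputable def vv (x : E2) : ℝ := 1 - 4 * (x 0 * x 1) ^ 2
noncomputable def ff (x : E2) : ℝ :=
  8 / 5 * ((4 * (x 0 * x 1) ^ 2 - (x 0 ^ 2 - x 1 ^ 2) ^ 2) / (x 0 ^ 2 + x 1 ^ 2))

lemma jet_u (x : E2) :
    gradient uu x = !₂[4 * x 0 * (x 0 ^ 2 - x 1 ^ 2), -4 * x 1 * (x 0 ^ 2 - x 1 ^ 2)] ∧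
      ∀ e, Q uu x e = ((12 * x 0 ^ 2 - 4 * x 1 ^ 2) * e 0 + (-8 * x 0 * x 1) * e 1) * e 0 +
        ((-8 * x 0 * x 1) * e 0 + (12 * x 1 ^ 2 - 4 * x 0 ^ 2) * e 1) * e 1 := by
  refine jet (a := fun x => 4 * x 0 * (x 0 ^ 2 - x 1 ^ 2))
    (b := fun x => -4 * x 1 * (x 0 ^ 2 - x 1 ^ 2)) (fun x => ?_) x ?_ ?_
  · refine HasFDerivAt.congr_fderiv ((((hX x).pow 2).sub ((hY x).pow 2)).pow 2)
      (ContinuousLinearMap.ext fun e => ?_)
    simp; ring
  · refine HasFDerivAt.congr_fderiv (((hX x).const_mul 4).mul (((hX x).pow 2).sub ((hY x).pow 2)))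
      (ContinuousLinearMap.ext fun e => ?_)
    simp; ring
  · refine HasFDerivAt.congr_fderiv (((hY x).const_mul (-4)).mul (((hX x).pow 2).sub ((hY x).pow 2)))
      (ContinuousLinearMap.ext fun e => ?_)
    simp; ring

lemma jet_v (x : E2) :
    gradient vv x = !₂[-8 * x 0 * x 1 ^ 2, -8 * x 1 * x 0 ^ 2] ∧
      ∀ e, Q vv x e = ((-8 * x 1 ^ 2) * e 0 + (-16 * x 0 * x 1) * e 1) * e 0 +
        ((-16 * x 0 * x 1) * e 0 + (-8 * x 0 ^ 2) * e 1) * e 1 := by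
  refine jet (a := fun x => -8 * x 0 * x 1 ^ 2)
    (b := fun x => -8 * x 1 * x 0 ^ 2) (fun x => ?_) x ?_ ?_
  · refine HasFDerivAt.congr_fderiv (((((hX x).mul (hY x)).pow 2).const_mul 4).const_sub 1)
      (ContinuousLinearMap.ext fun e => ?_)
    simp; ring
  · refine HasFDerivAt.congr_fderiv (((hX x).const_mul (-8)).mul ((hY x).pow 2))
      (ContinuousLinearMap.ext fun e => ?_)
    simp; ring
  · refine HasFDerivAt.congr_fderiv (((hY x).const_mul (-8)).mul ((hX x).pow 2))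
      (ContinuousLinearMap.ext fun e => ?_)
    simp; ring

lemma r_pos {x : E2} (hx : x ≠ 0) : 0 < x 0 ^ 2 + x 1 ^ 2 := by
  have hn : ‖x‖ ^ 2 = x 0 ^ 2 + x 1 ^ 2 := by
    rw [EuclideanSpace.real_norm_sq_eq, Fin.sum_univ_two]
  rw [← hn]; positivity

lemma ne_of_pos {w : E2} (h : 0 < w 0 ^ 2 + w 1 ^ 2) : w ≠ 0 := by
  rintro rfl; simp at h

lemma good_u (x : E2) : ∃ e, Adm uu x e ∧ op (6 / 5) uu x e = ff x := by
  obtain ⟨h1, h2⟩ := jet_u x
  by_cases hx : x = 0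
  · subst hx
    refine ⟨!₂[1, 0], ⟨by simp [EuclideanSpace.norm_eq], fun h => absurd ?_ h⟩, ?_⟩
    · rw [h1]; ext i; fin_cases i <;> simp
    · rw [op_eq, h2, h2]; simp [ff]
  · have hr := r_pos hx
    obtain ⟨e, he, hq⟩ := adm_of uu x !₂[x 0, -x 1] (4 * (x 0 ^ 2 - x 1 ^ 2))
      (ne_of_pos (by simpa using hr)) (by rw [h1]; ext i; fin_cases i <;> simp <;> ring)
    refine ⟨e, he, ?_⟩
    rw [op_eq, hq, h2, h2, h2, ff]
    simp
    field_simp
    ring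

lemma good_v (x : E2) : ∃ e, Adm vv x e ∧ op (6 / 5) vv x e = ff x := by
  obtain ⟨h1, h2⟩ := jet_v x
  by_cases hx : x = 0
  · subst hx
    refine ⟨!₂[1, 0], ⟨by simp [EuclideanSpace.norm_eq], fun h => absurd ?_ h⟩, ?_⟩
    · rw [h1]; ext i; fin_cases i <;> simp
    · rw [op_eq, h2, h2]; simp [ff]
  · have hr := r_pos hx
    obtain ⟨e, he, hq⟩ := adm_of vv x !₂[x 1, x 0] (-8 * x 0 * x 1)
      (ne_of_pos (by simpa [add_comm] using hr)) (by rw [h1]; ext i; fin_cases i <;> simp <;> ring)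
    refine ⟨e, he, ?_⟩
    rw [op_eq, hq, h2, h2, h2, ff]
    simp
    rw [add_comm (x 1 ^ 2)]
    field_simp
    ring

lemma ff_cont : Continuous ff := by
  rw [continuous_iff_continuousAt]
  intro x
  by_cases hx : x = 0
  · subst hx
    have h0 : ff 0 = 0 := by simp [ff]
    rw [ContinuousAt, h0]
    have hc : Continuous fun y : E2 => 8 / 5 * (y 0 ^ 2 + y 1 ^ 2) := by fun_prop
    refine squeeze_zero_norm (a := fun y : E2 => 8 / 5 * (y 0 ^ 2 + y 1 ^ 2)) (fun y => ?_) ?_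
    · by_cases hy : y = 0
      · subst hy; simp [h0]
      · have hr := r_pos hy
        rw [ff, norm_mul, Real.norm_of_nonneg (by norm_num), norm_div, Real.norm_of_nonneg hr.le]
        refine mul_le_mul_of_nonneg_left ?_ (by norm_num)
        rw [div_le_iff₀ hr, Real.norm_eq_abs, abs_le]
        constructor <;> nlinarith [sq_nonneg (y 0 * y 1), sq_nonneg (y 0 ^ 2 - y 1 ^ 2)]
    · simpa using hc.tendsto 0
  · have hr := (r_pos hx).ne'
    unfold ff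
    fun_prop (disch := exact hr)

theorem result : ∃ p : ℝ, 1 < p ∧ ∃ (Ω : Set (EuclideanSpace ℝ (Fin 2))) (f g u v : _ → ℝ),
    IsOpen Ω ∧ IsConnected Ω ∧ Bornology.IsBounded Ω ∧ ContinuousOn f (closure Ω) ∧
    ContinuousOn g (frontier Ω) ∧ Sol p Ω f g u ∧ Sol p Ω f g v ∧ ∃ x ∈ Ω, u x ≠ v x := by
  have cu : ContDiff ℝ 2 uu := by unfold uu; fun_prop
  have cv : ContDiff ℝ 2 vv := by unfold vv; fun_prop
  refine ⟨6 / 5, by norm_num, ball 0 1, ff, uu, uu, vv, isOpen_ball,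
    isConnected_ball one_pos, isBounded_ball, ff_cont.continuousOn, cu.continuous.continuousOn,
    sol_of (by norm_num) cu (fun _ _ => rfl) good_u, sol_of (by norm_num) cv ?_ good_v,
    0, by simp, by simp [uu, vv]⟩
  intro x hx
  rw [frontier_ball _ one_ne_zero, mem_sphere_zero_iff_norm] at hx
  have hn : ‖x‖ ^ 2 = x 0 ^ 2 + x 1 ^ 2 := by
    rw [EuclideanSpace.real_norm_sq_eq, Fin.sum_univ_two]
  rw [hx] at hn
  simp only [uu, vv]
  linear_combination (1 + x 0 ^ 2 + x 1 ^ 2) * hn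

end Pool.Agent.Results.MP_dcb15c_an.Nonunique
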